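import Pool.Agent.Helper87.NX3.ScalesOf
import Pool.Agent.Helper40.NX3.EnLeOf
import Pool.Agent.Helper7.NX3.PairSieve

/-! Project NX2, module C9: pigeonhole over the scales. -/

set_option autoImplicit false

open Finset
open scoped BigOperators

namespace Pool.Agent.Helper57.NX3

noncomputable section

/-- A chain of scales `β_j = z / Θ^(j+1)` and moduli `Ks j`: some step has a small energy
increment. -/
theorem scales (κ : ℝ) (hκ : 0 < κ) : ∃ J : ℕ, ∀ Θ : ℕ, 2 ≤ Θ → ∀ Ks : ℕ → ℕ, (∀ j, 1 ≤ Ks j) →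
    ∃ z0 : ℕ, ∀ z : ℕ, z0 ≤ z → ∀ A : Finset ℕ, PS z A → ∃ j < J,
      En z A (Ks (j + 1)) (z / Θ ^ (j + 2)) + En z A 1 (z / Θ ^ (j + 2)) ≤
        En z A (Ks j) (z / Θ ^ (j + 1)) + En z A 1 (z / Θ ^ (j + 1)) + κ :=
  scales_of (EnLe.en_le_of pair_sieve) κ hκ

end

end Pool.Agent.Helper57.NX3
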