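import Pool.Agent.Helper57.NX3.Defs

/-! Project NX2, module C9: pigeonhole over the scales (with the statement `en_le` of module C3 as a
hypothesis). -/

set_option autoImplicit false

open Finset
open scoped BigOperators

namespace Pool.Agent.Helper57.NX3

noncomputable section

theorem sc87_En_nonneg (z : ℕ) (A : Finset ℕ) (M b : ℕ) : 0 ≤ En z A M b := by
  unfold En
  have : 0 ≤ ∑ x ∈ range (2 ^ z), cd (FA z A) M b x ^ 2 := Finset.sum_nonneg fun _ _ => sq_nonneg _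
  positivity

/-- the block lengths are powers of `2 ^ z` -/
theorem sc87_pow {Θ J j z : ℕ} (hΘ : 2 ≤ Θ) (hj : j ≤ J) (hz : 2 * Θ ^ (J + 1) ≤ z) :
    ((2 : ℝ) ^ z) ^ ((1 : ℝ) / (2 * (Θ : ℝ) ^ (J + 1))) ≤ 2 ^ (z / Θ ^ (j + 1)) := by
  have hΘ1 : 1 ≤ Θ := by omega
  have h1 : Θ ^ (j + 1) ≤ Θ ^ (J + 1) := Nat.pow_le_pow_right hΘ1 (by omega)
  have h2 : 0 < Θ ^ (j + 1) := pow_pos (by omega) _
  have h3 : 0 < Θ ^ (J + 1) := pow_pos (by omega) _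
  have h4 : z / Θ ^ (J + 1) ≤ z / Θ ^ (j + 1) := Nat.div_le_div_left h1 h2
  obtain ⟨W, hW⟩ : ∃ W : ℕ, W = Θ ^ (J + 1) := ⟨_, rfl⟩
  have hWr : (Θ : ℝ) ^ (J + 1) = (W : ℝ) := by rw [hW]; push_cast; rfl
  rw [← hW] at h3 h4 hz
  rw [hWr]
  have hW0 : (0 : ℝ) < (W : ℝ) := by exact_mod_cast h3
  have h5 : z < W * (z / W + 1) := by
    have := Nat.lt_mul_div_succ z h3
    simpa [Nat.succ_eq_add_one] using this
  have h6 : (z : ℝ) * (1 / (2 * W)) ≤ ((z / Θ ^ (j + 1) : ℕ) : ℝ) := by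
    have h7 : (z : ℝ) < W * (((z / W : ℕ) : ℝ) + 1) := by exact_mod_cast h5
    have h8 : ((z / W : ℕ) : ℝ) ≤ ((z / Θ ^ (j + 1) : ℕ) : ℝ) := by exact_mod_cast h4
    have h9 : 2 * (W : ℝ) ≤ z := by exact_mod_cast hz
    refine le_trans ?_ h8
    rw [mul_one_div, div_le_iff₀ (by positivity)]
    nlinarith
  calc ((2 : ℝ) ^ z) ^ ((1 : ℝ) / (2 * (W : ℝ)))
      = (2 : ℝ) ^ ((z : ℝ) * (1 / (2 * W))) := by
        rw [← Real.rpow_natCast, ← Real.rpow_mul (by norm_num)]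
    _ ≤ (2 : ℝ) ^ (((z / Θ ^ (j + 1) : ℕ) : ℝ)) :=
        Real.rpow_le_rpow_of_exponent_le (by norm_num) h6
    _ = 2 ^ (z / Θ ^ (j + 1)) := Real.rpow_natCast _ _

theorem scales_of
    (hen : ∃ C1 : ℝ, 1 ≤ C1 ∧ ∀ M : ℕ, 1 ≤ M → ∀ θ : ℝ, 0 < θ → ∃ z0 : ℕ, ∀ z : ℕ, z0 ≤ z →
      ∀ A : Finset ℕ, PS z A → ∀ b : ℕ, b ≤ z → ((2 : ℝ) ^ z) ^ θ ≤ 2 ^ b → En z A M b ≤ C1)
    (κ : ℝ) (hκ : 0 < κ) : ∃ J : ℕ, ∀ Θ : ℕ, 2 ≤ Θ → ∀ Ks : ℕ → ℕ, (∀ j, 1 ≤ Ks j) →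
    ∃ z0 : ℕ, ∀ z : ℕ, z0 ≤ z → ∀ A : Finset ℕ, PS z A → ∃ j < J,
      En z A (Ks (j + 1)) (z / Θ ^ (j + 2)) + En z A 1 (z / Θ ^ (j + 2)) ≤
        En z A (Ks j) (z / Θ ^ (j + 1)) + En z A 1 (z / Θ ^ (j + 1)) + κ := by
  obtain ⟨C1, hC1, hen⟩ := hen
  refine ⟨⌈2 * C1 / κ⌉₊ + 1, ?_⟩
  intro Θ hΘ Ks hKs
  obtain ⟨J, hJ⟩ : ∃ J : ℕ, J = ⌈2 * C1 / κ⌉₊ + 1 := ⟨_, rfl⟩
  rw [← hJ]
  have hJκ : 2 * C1 < J * κ := by
    have h1 := Nat.le_ceil (2 * C1 / κ)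
    rw [div_le_iff₀ hκ] at h1
    rw [hJ]
    push_cast
    linarith
  have hθ : (0 : ℝ) < 1 / (2 * (Θ : ℝ) ^ (J + 1)) := by
    have : (0 : ℝ) < (Θ : ℝ) := by exact_mod_cast (by omega : 0 < Θ)
    positivity
  choose z1 hz1 using fun j => hen (Ks j) (hKs j) (1 / (2 * (Θ : ℝ) ^ (J + 1))) hθ
  obtain ⟨z2, hz2⟩ := hen 1 le_rfl (1 / (2 * (Θ : ℝ) ^ (J + 1))) hθ
  refine ⟨z1 J + z2 + 2 * Θ ^ (J + 1), ?_⟩
  intro z hz A hA
  by_contra hcon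
  push Not at hcon
  -- the increments
  have hinc : ∀ j, j ≤ J → (j : ℝ) * κ ≤
      En z A (Ks j) (z / Θ ^ (j + 1)) + En z A 1 (z / Θ ^ (j + 1)) := by
    intro j
    induction j with
    | zero =>
      intro _
      have h1 := sc87_En_nonneg z A (Ks 0) (z / Θ ^ (0 + 1))
      have h2 := sc87_En_nonneg z A 1 (z / Θ ^ (0 + 1))
      simp only [Nat.cast_zero, zero_mul]
      linarith
    | succ j ih =>
      intro hj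
      have h1 := ih (by omega)
      have h2 := hcon j (by omega)
      push_cast
      have e1 : j + 1 + 1 = j + 2 := rfl
      rw [e1]
      linarith
  have h1 := hinc J le_rfl
  have hΘz : 2 * Θ ^ (J + 1) ≤ z := by omega
  have hpow := sc87_pow (Θ := Θ) (J := J) (j := J) (z := z) hΘ le_rfl hΘz
  have hb : z / Θ ^ (J + 1) ≤ z := Nat.div_le_self _ _
  have h2 := hz1 J z (by omega) A hA _ hb hpow
  have h3 := hz2 z (by omega) A hA _ hb hpow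
  linarith

end

end Pool.Agent.Helper57.NX3
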